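import Pool.Agent.Q17.DC.Stm3
import Pool.Agent.Q176.DC.BRD

/-!
Project DC (helper17), job DZP: blocks induced from characters not vanishing on a section
(helper229).
-/

set_option autoImplicit false
set_option linter.unusedSectionVars false

open scoped BigOperators Classical Pointwise
open Pool.Agent.H254R3.IN Pool.Agent.Q17.TC Pool.Agent.Q17.DC Pool.Agent.Q176.DC

noncomputable section

namespace Pool.Agent.Q229.DC

variable {G : Type} [Group G] [Fintype G]

lemma sum_rs (C : Subgroup G) (φ : C → ℂ) (w : G) :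
    ∑ᶠ y : {y : C // IsConj w (y : G)}, φ y / φ 1 = Om (rs C (ind w)) φ := by
  rw [finsum_eq_sum_of_fintype]
  unfold Om rs ind
  simp only [ite_mul, one_mul, zero_mul]
  rw [← Finset.sum_filter, Finset.sum_div]
  rw [Finset.sum_subtype (Finset.univ.filter (fun y : C => IsConj w (y : G)))
    (p := fun y : C => IsConj w (y : G)) (by intro y; simp)]

/-- a class function as a combination of class indicators -/
lemma cl_eq {f : G → ℂ} (hf : IsCl f) (g : G) :
    f g = ∑ K : ConjClasses G, f (rep K) * ind (rep K) g := by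
  rw [Finset.sum_eq_single (ConjClasses.mk g)]
  · unfold ind
    rw [if_pos (rep_mk g), mul_one]
    exact (hf.isConj (rep_mk g)).symm
  · intro K _ hK
    unfold ind
    rw [if_neg, mul_zero]
    intro h
    exact hK ((mk_eq_iff g K).2 h).symm
  · intro h
    exact absurd (Finset.mem_univ _) h

/-- compatible central characters agree on all class functions -/
lemma red_tr {O : ValuationSubring ℂ} (C : Subgroup G) {θ : G → ℂ} {φ : C → ℂ} (hθ : IsIrr θ)
    (hφ : IsIrr φ) (h : ∀ x : G, red O (omega θ x) = red O (Om (rs C (ind x)) φ)) {f : G → ℂ}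
    (hf : IsCl f) (hf' : ∀ g, f g ∈ O) : red O (Om f θ) = red O (Om (rs C f) φ) := by
  have hmem : ∀ K : ConjClasses G, Om (rs C (ind (rep K))) φ ∈ O := fun K =>
    (red_Om hφ (rs_cl C (ind_cl _)) (rs_mem C (ind_mem O _))).1
  have h1 : Om (rs C f) φ = ∑ K : ConjClasses G, f (rep K) * Om (rs C (ind (rep K))) φ := by
    unfold Om
    simp only [← mul_div_assoc, Finset.mul_sum]
    rw [← Finset.sum_div, Finset.sum_comm]
    congr 1
    refine Finset.sum_congr rfl fun c _ => ?_
    have h2 : rs C f c = ∑ K : ConjClasses G, f (rep K) * ind (rep K) (c : G) := cl_eq hf (c : G)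
    rw [h2, Finset.sum_mul]
    refine Finset.sum_congr rfl fun K _ => ?_
    unfold rs
    ring
  rw [(red_Om hθ hf hf').2, h1, red_sum _ _ fun K _ => O.mul_mem _ _ (hf' _) (hmem K)]
  refine Finset.sum_congr rfl fun K _ => ?_
  rw [red_mul (hf' _) (hmem K), h]

theorem t_DZP (hSMT : S_SMT) (hPRT : S_PRT) (_ : S_TRS) (hMMX : S_MMX) : S_DZP := by
  intro A _ _ p _ O hp L θ hθ z s hzs hz hs hne B hB hind D hD
  have hcl := blockCoeff_cl hB.irr
  have hbO := blockCoeff_mem hB
  let C : Subgroup L := Subgroup.centralizer ({z} : Set L)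
  have hzC : z ∈ C := by
    rw [Subgroup.mem_centralizer_iff]
    rintro _ rfl
    rfl
  have hsC : s ∈ C := by
    rw [Subgroup.mem_centralizer_iff]
    rintro _ rfl
    exact hzs
  obtain ⟨β, hβ, hsum⟩ := hPRT C O (fun t : C => θ (z * t)) ⟨s, hsC⟩ hne
  obtain ⟨φ, hφ⟩ := hβ.nonempty
  have hφi := hβ.irr φ hφ
  have key2 : ∀ x : L, omega θ x - ∑ᶠ v : {v : C // IsConj x (C.subtype v)}, φ v / φ 1 ∈
      O.nonunits := by
    intro x
    by_contra hcon
    have h1 := hSMT C L C.subtype p O C.subtype_injective hp ⟨z, hzC⟩ (by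
      obtain ⟨k, hk⟩ := hz
      exact ⟨k, by rw [← hk]; exact Subgroup.orderOf_mk z hzC⟩) (by
      intro g
      rw [Subgroup.range_subtype, Subgroup.mem_centralizer_iff]
      constructor
      · rintro h _ rfl
        exact h
      · intro h
        exact h z rfl) β hβ φ hφ θ hθ x hcon ⟨s, hsC⟩ (by
      rw [Subgroup.orderOf_mk]; exact hs)
    apply hsum
    rw [← h1]
    refine Finset.sum_congr rfl fun t _ => ?_
    show blockCoeff β t * θ (z * (s * (t : L))) = blockCoeff β t * θ (z * s * (t : L))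
    rw [mul_assoc]
  have key2' : ∀ x : L, red O (omega θ x) = red O (Om (rs C (ind x)) φ) := by
    intro x
    have h1 := key2 x
    have h2 : ∑ᶠ v : {v : C // IsConj x (C.subtype v)}, φ v / φ 1 = Om (rs C (ind x)) φ :=
      sum_rs C φ x
    rw [h2] at h1
    exact (red_eq_iff (hθ.omega_mem O x)
      (red_Om hφi (rs_cl C (ind_cl _)) (rs_mem C (ind_mem O _))).1).2 h1
  obtain ⟨χ, hχ⟩ := hB.nonempty
  have hχi := hB.irr χ hχ
  have key1 : ∀ x : A, red O (omega χ x) = red O (Om (rs L (ind x)) θ) := by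
    intro x
    have h1 := hind χ hχ x
    rw [sum_rs L θ x] at h1
    exact (red_eq_iff (hχi.omega_mem O x)
      (red_Om hθ (rs_cl L (ind_cl _)) (rs_mem L (ind_mem O _))).1).2 h1
  have h1 := red_tr L hχi hθ key1 hcl hbO
  have h2 := red_tr C hθ hφi key2' (rs_cl L hcl) (rs_mem L hbO)
  rw [Om_blockCoeff hB.irr hχi, if_pos hχ, red_one, h2,
    (red_Om hφi (rs_cl C (rs_cl L hcl)) (rs_mem C (rs_mem L hbO))).2] at h1
  obtain ⟨K, _, hK⟩ := Finset.exists_ne_zero_of_sum_ne_zero (by rw [← h1]; exact one_ne_zero :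
    ∑ K : ConjClasses C, red O (rs C (rs L (blockCoeff B)) (rep K)) * red O (omega φ (rep K)) ≠ 0)
  have h3 : blockCoeff B ((rep K : C) : L) ∉ O.nonunits := fun h0 =>
    left_ne_zero_of_mul hK (red_eq_zero h0)
  have hcomm : Commute (z : A) (((rep K : C) : L) : A) := by
    have h4 : Commute z ((rep K : C) : L) := (Subgroup.mem_centralizer_iff.1 (rep K : C).2) z rfl
    exact congrArg Subtype.val h4
  have hpz : IsPGroup p (Subgroup.zpowers (z : A)) := by
    obtain ⟨k, hk⟩ := hz
    refine IsPGroup.of_card (n := k) ?_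
    rw [Nat.card_zpowers, Subgroup.orderOf_coe, hk]
  obtain ⟨g, hg⟩ := ((hMMX A p O hp B hB).2 D hD).1 _ h3 (Subgroup.zpowers (z : A)) hpz (by
    rintro r ⟨n, rfl⟩
    exact hcomm.zpow_left n)
  exact ⟨g, hg _ (Subgroup.mem_zpowers _)⟩

end Pool.Agent.Q229.DC
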