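import Pool.Agent.Q17.DC.Stm3
import Pool.Agent.Q176.DC.BRD

/-!
Project DC (helper17), job MMX: existence of defect groups and the min-max theorem (helper229).
-/

set_option autoImplicit false
set_option linter.unusedSectionVars false

open scoped BigOperators Classical Pointwise
open Pool.Agent.H254R3.IN Pool.Agent.Q17.TC Pool.Agent.Q17.DC Pool.Agent.Q176.DC

noncomputable section

namespace Pool.Agent.Q229.DC

variable {G : Type} [Group G] [Fintype G]

/-- `p`-subgroups centralising an element with unit coefficient are conjugate into `Q` -/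
def JQ (p : ℕ) (O : ValuationSubring ℂ) (Q : Subgroup G) (u : G → ℂ) : Prop :=
  ∀ y, u y ∉ O.nonunits → ∀ R : Subgroup G, IsPGroup p R → (∀ r ∈ R, Commute r y) →
    ∃ g : G, ∀ r ∈ R, g * r * g⁻¹ ∈ Q

lemma conv_comm' {u v : G → ℂ} (hu : IsCl u) (hv : IsCl v) : conv u v = conv v u := by
  refine eq_of_Om (hu.conv hv) (hv.conv hu) fun χ hχ => ?_
  rw [Om_conv hχ hu hv, Om_conv hχ hv hu, mul_comm]

lemma jq_conv {p : ℕ} [Fact p.Prime] {O : ValuationSubring ℂ} (hp : (p : ℂ) ∈ O.nonunits)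
    {Q : Subgroup G} {u w : G → ℂ} (hu : IsCl u) (hu' : ∀ g, u g ∈ O) (hw : IsCl w)
    (hw' : ∀ g, w g ∈ O) (h : JQ p O Q u) : JQ p O Q (conv w u) := by
  intro v hv R hR hRv
  have hc : v ∈ Subgroup.centralizer (R : Set G) := by
    rw [Subgroup.mem_centralizer_iff]
    exact fun r hr => hRv r hr
  have h1 := rs_conv hp R hR hw hu hw' hu' ⟨v, hc⟩
  have h2 : red O (rs _ (conv w u) (⟨v, hc⟩ : Subgroup.centralizer (R : Set G))) ≠ 0 := by
    intro h0
    exact hv ((red_eq_zero_iff (conv_mem hw' hu' v)).1 h0)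
  rw [h1] at h2
  unfold conv at h2
  rw [red_sum _ _ fun x _ => O.mul_mem _ _ (rs_mem _ hw' x) (rs_mem _ hu' _)] at h2
  obtain ⟨x, _, hx⟩ := Finset.exists_ne_zero_of_sum_ne_zero h2
  rw [red_mul (rs_mem _ hw' x) (rs_mem _ hu' _)] at hx
  have h3 := right_ne_zero_of_mul hx
  have h4 : u ((x : G)⁻¹ * v) ∉ O.nonunits := fun h0 => h3 (red_eq_zero h0)
  refine h _ h4 R hR fun r hr => ?_
  have h5 : Commute r (x : G) := (Subgroup.mem_centralizer_iff.1 x.2) r hr
  exact h5.inv_right.mul_right (hRv r hr)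

lemma jq_ind {p : ℕ} [Fact p.Prime] {O : ValuationSubring ℂ} (x : G)
    (P : Sylow p (Subgroup.centralizer ({x} : Set G))) :
    JQ p O ((P : Subgroup (Subgroup.centralizer ({x} : Set G))).map
        (Subgroup.centralizer ({x} : Set G)).subtype) (ind x) := by
  intro y hy R hR hRy
  have hxy : IsConj x y := by
    by_contra hcon
    apply hy
    rw [ind, if_neg hcon]
    exact O.nonunits.zero_mem
  obtain ⟨c, hc⟩ := isConj_iff.1 hxy
  let R1 : Subgroup G := R.map (MulAut.conj c⁻¹).toMonoidHom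
  have hR1 : IsPGroup p R1 := hR.map _
  have hR1c : R1 ≤ Subgroup.centralizer ({x} : Set G) := by
    rintro _ ⟨r, hr, rfl⟩
    rw [Subgroup.mem_centralizer_iff]
    rintro z hz
    rw [Set.mem_singleton_iff] at hz
    subst hz
    have h1 : r * y = y * r := hRy r hr
    rw [← hc] at h1
    show z * (c⁻¹ * r * c⁻¹⁻¹) = c⁻¹ * r * c⁻¹⁻¹ * z
    have h2 : c⁻¹ * (r * (c * z * c⁻¹)) * c = c⁻¹ * (c * z * c⁻¹ * r) * c := by rw [h1]
    calc z * (c⁻¹ * r * c⁻¹⁻¹) = c⁻¹ * (c * z * c⁻¹ * r) * c := by group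
      _ = c⁻¹ * (r * (c * z * c⁻¹)) * c := h2.symm
      _ = c⁻¹ * r * c⁻¹⁻¹ * z := by group
  let R2 : Subgroup (Subgroup.centralizer ({x} : Set G)) := R1.subgroupOf _
  have hR2 : IsPGroup p R2 := hR1.comap_subtype
  obtain ⟨Q, hQ⟩ := hR2.exists_le_sylow
  obtain ⟨k, hk⟩ := MulAction.exists_smul_eq (Subgroup.centralizer ({x} : Set G)) P Q
  refine ⟨(k : G)⁻¹ * c⁻¹, fun r hr => ?_⟩
  have h1 : c⁻¹ * r * c ∈ R1 := ⟨r, hr, by simp⟩
  have h2 : (⟨c⁻¹ * r * c, hR1c h1⟩ : Subgroup.centralizer ({x} : Set G)) ∈ Q :=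
    hQ (Subgroup.mem_subgroupOf.2 h1)
  have h3 : k⁻¹ * (⟨c⁻¹ * r * c, hR1c h1⟩ : Subgroup.centralizer ({x} : Set G)) * k ∈
      (P : Subgroup (Subgroup.centralizer ({x} : Set G))) := by
    rw [← hk] at h2
    have h4 : (⟨c⁻¹ * r * c, hR1c h1⟩ : Subgroup.centralizer ({x} : Set G)) ∈
        MulAut.conj k • (P : Subgroup (Subgroup.centralizer ({x} : Set G))) := h2
    rw [Subgroup.mem_pointwise_smul_iff_inv_smul_mem] at h4
    simpa [MulAut.smul_def] using h4
  refine ⟨_, h3, ?_⟩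
  show (k : G)⁻¹ * (c⁻¹ * r * c) * (k : G) = (k : G)⁻¹ * c⁻¹ * r * ((k : G)⁻¹ * c⁻¹)⁻¹
  group

lemma jq_block (hU : S_UNIT) {p : ℕ} [Fact p.Prime] {O : ValuationSubring ℂ}
    (hp : (p : ℂ) ∈ O.nonunits) {B : Set (G → ℂ)} (hB : IsBlock O B) {χ : G → ℂ} (hχ : χ ∈ B)
    {x : G} (hx : omega χ x ∉ O.nonunits) (P : Sylow p (Subgroup.centralizer ({x} : Set G))) :
    JQ p O ((P : Subgroup (Subgroup.centralizer ({x} : Set G))).map
        (Subgroup.centralizer ({x} : Set G)).subtype) (blockCoeff B) := by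
  obtain ⟨f, hf, hf', e⟩ := hU G O B hB (ind x) (ind_cl x) (ind_mem O x) χ hχ
    (by rw [Om_ind (hB.irr χ hχ)]; exact hx)
  rw [← e, conv_comm' (ind_cl x) hf]
  exact jq_conv hp (ind_cl x) (ind_mem O x) hf hf' (jq_ind x P)

theorem t_MMX (hU : S_UNIT) : S_MMX := by
  intro G _ _ p _ O hp B hB
  have hcl := blockCoeff_cl hB.irr
  have hbO := blockCoeff_mem hB
  have hall : ∀ {x : G} {χ : G → ℂ}, χ ∈ B → omega χ x ∉ O.nonunits →
      ∀ χ' ∈ B, omega χ' x ∉ O.nonunits := by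
    intro x χ hχ h χ' hχ' h'
    apply h
    rw [← red_eq_zero_iff ((hB.irr χ hχ).omega_mem O x), hB.red_eq hχ hχ' x]
    exact red_eq_zero h'
  constructor
  · obtain ⟨χ, hχ⟩ := hB.nonempty
    have h1 := (red_Om (hB.irr χ hχ) hcl hbO).2
    rw [Om_blockCoeff hB.irr (hB.irr χ hχ), if_pos hχ, red_one] at h1
    have h2 : ∑ K : ConjClasses G, red O (blockCoeff B (rep K)) * red O (omega χ (rep K)) ≠ 0 := by
      rw [← h1]
      exact one_ne_zero
    obtain ⟨K, _, hK⟩ := Finset.exists_ne_zero_of_sum_ne_zero h2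
    have h3 : blockCoeff B (rep K) ∉ O.nonunits := fun h0 =>
      left_ne_zero_of_mul hK (red_eq_zero h0)
    have h4 : omega χ (rep K) ∉ O.nonunits := fun h0 =>
      right_ne_zero_of_mul hK (red_eq_zero h0)
    obtain ⟨P⟩ : Nonempty (Sylow p (Subgroup.centralizer ({rep K} : Set G))) := inferInstance
    exact ⟨_, rep K, ⟨P, rfl⟩, hall hχ h4, h3⟩
  · rintro D ⟨x, ⟨P, rfl⟩, hx1, hx2⟩
    constructor
    · obtain ⟨χ, hχ⟩ := hB.nonempty
      exact jq_block hU hp hB hχ (hx1 χ hχ) P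
    · intro y χ hχ hy
      obtain ⟨P'⟩ : Nonempty (Sylow p (Subgroup.centralizer ({y} : Set G))) := inferInstance
      obtain ⟨g, hg⟩ := jq_block hU hp hB hχ hy P' x hx2
        ((P : Subgroup (Subgroup.centralizer ({x} : Set G))).map
          (Subgroup.centralizer ({x} : Set G)).subtype) (P.isPGroup'.map _) (by
          rintro _ ⟨r, _, rfl⟩
          exact ((Subgroup.mem_centralizer_iff.1 r.2) x rfl).symm)
      refine ⟨g, fun d hd => ?_⟩
      obtain ⟨d', _, hd'⟩ := hg d hd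
      rw [← hd']
      exact ((Subgroup.mem_centralizer_iff.1 d'.2) y rfl).symm

end Pool.Agent.Q229.DC
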